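import Pool.Agent.helper74.MQ.Spec

/-! Project mq:, module UNQ (helper82): the partner of a strip is unique. -/

set_option autoImplicit false

open Complex Metric Set Filter Topology MeasureTheory MPS

noncomputable section

namespace MQ

theorem UNQ (hNI : NI_stmt) (hND : ND_stmt) : UNQ_stmt := by
  intro k _ b g ψ hF i l l' S S' y₁ y₂ y₁' y₂' y hS hS' h1 h2 h3 h4
  obtain ⟨χ, hχ⟩ := hS
  obtain ⟨χ', hχ'⟩ := hS'
  set Ω : Set ℂ := {w : ℂ | max y₁ y₁' < w.im ∧ w.im < min y₂ y₂'} with hΩ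
  have hΩo : IsOpen Ω :=
    (isOpen_lt continuous_const Complex.continuous_im).inter
      (isOpen_lt Complex.continuous_im continuous_const)
  have hΩc : Convex ℝ Ω :=
    (convex_halfSpace_im_gt _).inter (convex_halfSpace_im_lt _)
  have hsub : Ω ⊆ {w : ℂ | y₁ < w.im ∧ w.im < y₂} := fun w hw =>
    ⟨lt_of_le_of_lt (le_max_left _ _) hw.1, lt_of_lt_of_le hw.2 (min_le_left _ _)⟩
  have hsub' : Ω ⊆ {w : ℂ | y₁' < w.im ∧ w.im < y₂'} := fun w hw =>
    ⟨lt_of_le_of_lt (le_max_right _ _) hw.1, lt_of_lt_of_le hw.2 (min_le_right _ _)⟩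
  have ha : AnalyticOnNhd ℂ χ Ω := (hχ.nat.diff.mono hsub).analyticOnNhd hΩo
  have ha' : AnalyticOnNhd ℂ χ' Ω := (hχ'.nat.diff.mono hsub').analyticOnNhd hΩo
  have hyΩ : ∀ t : ℝ, (t : ℂ) + y * I ∈ Ω := by
    intro t
    have : ((t : ℂ) + y * I).im = y := by simp
    show max y₁ y₁' < ((t : ℂ) + y * I).im ∧ ((t : ℂ) + y * I).im < min y₂ y₂'
    rw [this]
    exact ⟨max_lt h1 h3, lt_min h2 h4⟩
  have hev : χ =ᶠ[𝓝 (((-1 : ℝ) : ℂ) + y * I)] χ' := by
    have hm : Ω ∩ {w : ℂ | w.re < 0} ∈ 𝓝 (((-1 : ℝ) : ℂ) + y * I) := by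
      apply (hΩo.inter (isOpen_lt Complex.continuous_re continuous_const)).mem_nhds
      refine ⟨hyΩ _, ?_⟩
      show (((-1 : ℝ) : ℂ) + y * I).re < 0
      simp
    filter_upwards [hm] with w hw
    rw [hχ.left w (hsub hw.1).1 (hsub hw.1).2 hw.2, hχ'.left w (hsub' hw.1).1 (hsub' hw.1).2 hw.2]
  have heq : EqOn χ χ' Ω :=
    ha.eqOn_of_preconnected_of_eventuallyEq ha' hΩc.isPreconnected (hyΩ _) hev
  obtain ⟨t, ht⟩ : ∃ t : ℝ, max S.re S'.re < t := exists_gt _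
  have ht1 : S.re < t := lt_of_le_of_lt (le_max_left _ _) ht
  have ht2 : S'.re < t := lt_of_le_of_lt (le_max_right _ _) ht
  set w : ℂ := (t : ℂ) + y * I with hw
  have hwre : w.re = t := by simp [hw]
  have hwΩ : w ∈ Ω := hyΩ t
  have e1 := hχ.right w (hsub hwΩ).1 (hsub hwΩ).2 (by rw [hwre]; exact ht1)
  have e2 := hχ'.right w (hsub' hwΩ).1 (hsub' hwΩ).2 (by rw [hwre]; exact ht2)
  have e3 : hat (ψ l) (S - w) = hat (ψ l') (S' - w) := by rw [← e1, ← e2]; exact heq hwΩ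
  unfold hat at e3
  have b1 : Complex.exp (S - w) ∈ ball (0 : ℂ) 1 := by
    rw [mem_ball_zero_iff, Complex.norm_exp, Real.exp_lt_one_iff, Complex.sub_re, hwre]
    linarith
  have b2 : Complex.exp (S' - w) ∈ ball (0 : ℂ) 1 := by
    rw [mem_ball_zero_iff, Complex.norm_exp, Real.exp_lt_one_iff, Complex.sub_re, hwre]
    linarith
  have hll : l = l' := by
    by_contra hne
    have := hND k b g l l' (ψ l) (ψ l') hF.inj hne (hF.mx l) (hF.mx l')
    rw [Set.disjoint_left] at this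
    exact this ⟨_, b1, rfl⟩ ⟨_, b2, e3.symm⟩
  refine ⟨hll, ?_⟩
  subst hll
  have hinj := hNI k b g l (ψ l) 1 (hF.mx l).pn b1 b2 e3
  rw [Complex.exp_eq_exp_iff_exists_int] at hinj
  obtain ⟨n, hn⟩ := hinj
  refine ⟨-n, ?_⟩
  have : S = S' + n * (2 * Real.pi * I) := by
    have := hn
    linear_combination this
  rw [this]
  push_cast
  ring

end MQ
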